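import Pool.Agent.H703R3.MBBody

/-!
# The billiard in the body `‖x‖² + x_k⁴ ≤ 1` of `ℝⁿ` preserves the angular momenta
`x_i v_j - x_j v_i`, `i, j ≠ k`
-/

set_option autoImplicit false

open Set Filter Topology
open scoped RealInnerProductSpace ContDiff

namespace Pool.Agent.L0h86.MBI

open Pool.Agent.H703R3.MB

variable {n : ℕ}

/-- the function `‖x‖² + x_k⁴` -/
noncomputable def fi (k : Fin n) (x : Euc n) : ℝ := ‖x‖ ^ 2 + (x k) ^ 4

/-- its gradient -/
noncomputable def gi (k : Fin n) (x : Euc n) : Euc n :=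
  (2 : ℝ) • x + (4 * (x k) ^ 3) • EuclideanSpace.single k (1 : ℝ)

theorem gi_inner (k : Fin n) (x w : Euc n) :
    ⟪gi k x, w⟫ = 2 * ⟪x, w⟫ + 4 * (x k) ^ 3 * w k := by
  unfold gi
  rw [inner_add_left, real_inner_smul_left, real_inner_smul_left,
    EuclideanSpace.inner_single_left]
  simp

theorem goodi (k : Fin n) : Good (fi k) (gi k) where
  cd := by
    unfold fi
    have h1 : ContDiff ℝ ∞ fun x : Euc n => ‖x‖ ^ 2 := contDiff_norm_sq ℝ
    have h2 : ContDiff ℝ ∞ fun x : Euc n => (x k) ^ 4 := by fun_prop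
    exact h1.add h2
  line := by
    intro x w
    refine ⟨‖w‖ ^ 2 + 6 * (x k) ^ 2 * (w k) ^ 2, 4 * x k * (w k) ^ 3, (w k) ^ 4, ?_, ?_, ?_⟩
    · nlinarith [mul_nonneg (sq_nonneg (x k)) (sq_nonneg (w k))]
    · nlinarith [mul_nonneg (sq_nonneg (w k)) (sq_nonneg (2 * x k + w k)),
        mul_nonneg (sq_nonneg (x k)) (sq_nonneg (w k))]
    · intro s
      unfold fi
      rw [gi_inner]
      have h1 : ‖x + s • w‖ ^ 2 = ‖x‖ ^ 2 + 2 * s * ⟪x, w⟫ + s ^ 2 * ‖w‖ ^ 2 := by
        rw [norm_add_sq_real, real_inner_smul_right, norm_smul, mul_pow, Real.norm_eq_abs, sq_abs]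
        ring
      rw [h1]
      simp only [PiLp.add_apply, PiLp.smul_apply, smul_eq_mul]
      ring
  lower := by
    intro x
    unfold fi
    nlinarith [sq_nonneg ((x k) ^ 2)]
  zero := by simp [fi]
  pos := by
    intro x hx
    rw [gi_inner, real_inner_self_eq_norm_sq]
    have h0 : 0 < ‖x‖ := by
      refine norm_pos_iff.2 ?_
      rintro rfl
      simp [fi] at hx
    have h1 : 0 ≤ 4 * (x k) ^ 3 * x k := by nlinarith [sq_nonneg ((x k) ^ 2)]
    positivity

theorem not_elli {j k : Fin n} (hjk : j ≠ k) : ¬ IsEllipsoid (Body (fi k)) := by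
  refine (goodi k).not_isEllipsoid (p := EuclideanSpace.single j (1 : ℝ))
    (q := EuclideanSpace.single k (1 : ℝ)) ?_ ?_ ?_
  · intro x
    unfold fi
    rw [norm_neg]
    simp only [PiLp.neg_apply]
    ring
  · simp
  · intro a b
    unfold fi
    rw [norm_add_sq_real, norm_smul, norm_smul, real_inner_smul_left,
      real_inner_smul_right, EuclideanSpace.inner_single_left]
    simp [hjk, hjk.symm]

/-! ### the billiard map of a general good body -/

variable {f : Euc n → ℝ} {g : Euc n → Euc n}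

theorem lineThrough_self {l : Euc n × Euc n} (h1 : ‖l.2‖ = 1) (h2 : ⟪l.1, l.2⟫ = 0) (t : ℝ) :
    lineThrough (l.1 + t • l.2) l.2 = l := by
  unfold lineThrough
  have e : ⟪l.1 + t • l.2, l.2⟫ = t := by
    rw [inner_add_left, h2, real_inner_smul_left, real_inner_self_eq_norm_sq, h1]
    ring
  rw [e, add_sub_cancel_right]

theorem lineThrough_norm {x v : Euc n} (hv : ‖v‖ = 1) :
    ‖(lineThrough x v).2‖ = 1 ∧ ⟪(lineThrough x v).1, (lineThrough x v).2⟫ = 0 := by
  refine ⟨hv, ?_⟩
  unfold lineThrough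
  simp only
  rw [inner_sub_left, real_inner_smul_left, real_inner_self_eq_norm_sq, hv]
  ring

/-- `x` is the exit point of the line through `x` in an outward direction `v` -/
theorem exit_eq (h : Good f g) {x v : Euc n} (hx : f x = 1) (hv : 0 < ⟪g x, v⟫) :
    exitPoint (Body f) (lineThrough x v) = x := by
  unfold exitPoint lineThrough
  simp only
  have hg : IsGreatest {t : ℝ | x - ⟪x, v⟫ • v + t • v ∈ Body f} ⟪x, v⟫ := by
    constructor
    · show f _ ≤ 1
      rw [sub_add_cancel, hx]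
    · intro t ht
      by_contra hlt
      push Not at hlt
      have h1 : f (x - ⟪x, v⟫ • v + t • v) ≤ 1 := ht
      have h2 := h.ge x (x - ⟪x, v⟫ • v + t • v)
      have e : x - ⟪x, v⟫ • v + t • v - x = (t - ⟪x, v⟫) • v := by
        rw [sub_smul]
        abel
      rw [e, real_inner_smul_right] at h2
      have h3 : 0 < (t - ⟪x, v⟫) * ⟪g x, v⟫ := mul_pos (sub_pos.2 hlt) hv
      have h4 : 0 ≤ ‖(t - ⟪x, v⟫) • v‖ ^ 2 := by positivity
      linarith
  rw [hg.csSup_eq, sub_add_cancel]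

/-- a line through a boundary point in a transversal direction meets the interior -/
theorem mem_lines (h : Good f g) {x v : Euc n} (hx : f x = 1) (hv1 : ‖v‖ = 1)
    (hv : ⟪g x, v⟫ ≠ 0) : lineThrough x v ∈ lines (Body f) := by
  obtain ⟨h1, h2⟩ := lineThrough_norm (x := x) hv1
  refine ⟨h1, h2, ?_⟩
  have hex : ∃ s : ℝ, f (x + s • v) < 1 := by
    rcases lt_or_gt_of_ne hv with h3 | h3
    · obtain ⟨s, _, hs⟩ := h.exists_lt h3
      exact ⟨s, by rwa [hx] at hs⟩
    · obtain ⟨s, _, hs⟩ := h.exists_lt (x := x) (w := -v) (by rw [inner_neg_right]; linarith)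
      refine ⟨-s, ?_⟩
      rw [neg_smul, ← smul_neg]
      rwa [hx] at hs
  obtain ⟨s, hs⟩ := hex
  refine ⟨⟪x, v⟫ + s, ?_⟩
  rw [h.interior_body]
  show f _ < 1
  unfold lineThrough
  simp only
  rw [add_smul, ← add_assoc, sub_add_cancel]
  exact hs

/-- the exit point of a line of the phase space -/
theorem exists_exit (h : Good f g) {l : Euc n × Euc n} (hl : l ∈ lines (Body f)) :
    ∃ x : Euc n, f x = 1 ∧ 0 < ⟪g x, l.2⟫ ∧ l = lineThrough x l.2 := by
  obtain ⟨h1, h2, t0, ht0⟩ := hl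
  rw [h.interior_body] at ht0
  have ht0' : f (l.1 + t0 • l.2) < 1 := ht0
  set T : Set ℝ := {t : ℝ | f (l.1 + t • l.2) ≤ 1} with hT
  have hcont : Continuous fun t : ℝ => f (l.1 + t • l.2) := h.continuous.comp (by fun_prop)
  have hTc : IsClosed T := isClosed_le hcont continuous_const
  have hTb : BddAbove T := by
    refine ⟨‖l.1‖ + 1, fun t ht => ?_⟩
    have h3 : ‖l.1 + t • l.2‖ ≤ 1 := h.norm_le_of_mem ht
    have h4 : ‖t • l.2‖ ≤ ‖l.1 + t • l.2‖ + ‖l.1‖ := by
      have := norm_sub_le (l.1 + t • l.2) l.1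
      rwa [add_sub_cancel_left] at this
    rw [norm_smul, h1, mul_one] at h4
    have := le_abs_self t
    rw [Real.norm_eq_abs] at h4
    linarith
  have hTn : T.Nonempty := ⟨t0, ht0'.le⟩
  set t1 := sSup T with ht1
  have hmem : t1 ∈ T := hTc.csSup_mem hTn hTb
  have hmem' : f (l.1 + t1 • l.2) ≤ 1 := hmem
  have hle : t0 ≤ t1 := le_csSup hTb ht0'.le
  have hx : f (l.1 + t1 • l.2) = 1 := by
    refine le_antisymm hmem' ?_
    by_contra hcon
    push Not at hcon
    have h3 : ∀ᶠ s in 𝓝 t1, f (l.1 + s • l.2) < 1 :=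
      (hcont.tendsto t1).eventually (gt_mem_nhds hcon)
    obtain ⟨δ, hδ, hs⟩ := Metric.eventually_nhds_iff.1 h3
    have h4 := hs (y := t1 + δ / 2) (by
      rw [Real.dist_eq, add_sub_cancel_left, abs_of_pos (by linarith)]; linarith)
    have h5 : t1 + δ / 2 ≤ t1 := le_csSup hTb h4.le
    linarith
  refine ⟨l.1 + t1 • l.2, hx, ?_, (lineThrough_self h1 h2 t1).symm⟩
  have h6 := h.ge (l.1 + t1 • l.2) (l.1 + t0 • l.2)
  have e : l.1 + t0 • l.2 - (l.1 + t1 • l.2) = (t0 - t1) • l.2 := by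
    rw [sub_smul]
    abel
  rw [e, real_inner_smul_right, hx] at h6
  have h7 : 0 ≤ ‖(t0 - t1) • l.2‖ ^ 2 := by positivity
  by_contra hcon
  push Not at hcon
  have h8 : 0 ≤ (t0 - t1) * ⟪g (l.1 + t1 • l.2), l.2⟫ :=
    mul_nonneg_of_nonpos_of_nonpos (by linarith) hcon
  linarith

/-- the entry point of a line of the phase space -/
theorem exists_entry (h : Good f g) {l : Euc n × Euc n} (hl : l ∈ lines (Body f)) :
    ∃ x : Euc n, f x = 1 ∧ ⟪g x, l.2⟫ < 0 ∧ l = lineThrough x l.2 := by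
  obtain ⟨h1, h2, t0, ht0⟩ := hl
  have hl' : ((l.1, -l.2) : Euc n × Euc n) ∈ lines (Body f) := by
    refine ⟨by simpa using h1, by simpa using h2, -t0, ?_⟩
    simpa using ht0
  obtain ⟨x, hx1, hx2, hx3⟩ := exists_exit h hl'
  refine ⟨x, hx1, ?_, ?_⟩
  · simp only [inner_neg_right] at hx2
    linarith
  · unfold lineThrough at hx3 ⊢
    have h3 := congrArg Prod.fst hx3
    simp only [inner_neg_right, smul_neg, neg_smul, neg_neg] at h3
    exact Prod.ext h3 rfl

/-- reflection of a direction at the boundary point `x` -/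
noncomputable def refl (g : Euc n → Euc n) (x v : Euc n) : Euc n :=
  v - (2 * ⟪v, ‖g x‖⁻¹ • g x⟫) • (‖g x‖⁻¹ • g x)

theorem unit_normal (h : Good f g) {x : Euc n} (hx : f x = 1) : ‖‖g x‖⁻¹ • g x‖ = 1 := by
  have h0 : 0 < ‖g x‖ := norm_pos_iff.2 (h.g_ne_zero hx)
  rw [norm_smul, norm_inv, norm_norm, inv_mul_cancel₀ h0.ne']

theorem refl_inner (h : Good f g) {x : Euc n} (hx : f x = 1) (v : Euc n) :
    ⟪g x, refl g x v⟫ = - ⟪g x, v⟫ := by
  have h0 : 0 < ‖g x‖ := norm_pos_iff.2 (h.g_ne_zero hx)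
  unfold refl
  rw [inner_sub_right, real_inner_smul_right, real_inner_smul_right, real_inner_smul_right,
    real_inner_self_eq_norm_sq, real_inner_comm v (g x)]
  field_simp
  ring

theorem refl_norm (h : Good f g) {x : Euc n} (hx : f x = 1) {v : Euc n} (hv : ‖v‖ = 1) :
    ‖refl g x v‖ = 1 := by
  have h1 := unit_normal h hx
  unfold refl
  set ν := ‖g x‖⁻¹ • g x with hν
  have h2 : ‖v - (2 * ⟪v, ν⟫) • ν‖ ^ 2 = 1 := by
    rw [norm_sub_sq_real, real_inner_smul_right, norm_smul, h1, hv, Real.norm_eq_abs, mul_one,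
      sq_abs]
    ring
  nlinarith [norm_nonneg (v - (2 * ⟪v, ν⟫) • ν)]

theorem refl_refl (h : Good f g) {x : Euc n} (hx : f x = 1) (v : Euc n) :
    refl g x (refl g x v) = v := by
  have h1 := unit_normal h hx
  unfold refl
  set ν := ‖g x‖⁻¹ • g x with hν
  have h2 : ⟪v - (2 * ⟪v, ν⟫) • ν, ν⟫ = - ⟪v, ν⟫ := by
    rw [inner_sub_left, real_inner_smul_left, real_inner_self_eq_norm_sq, h1]
    ring
  rw [h2]
  rw [mul_neg, neg_smul]
  abel

/-- the billiard map in terms of the exit point -/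
theorem billiard_eq (h : Good f g) {x v : Euc n} (hx : f x = 1) (hv : 0 < ⟪g x, v⟫) :
    billiardMap (Body f) (lineThrough x v) = lineThrough x (refl g x v) := by
  unfold billiardMap refl
  rw [exit_eq h hx hv, h.outerNormal_eq hx]
  rfl

theorem mapsTo_lines (h : Good f g) :
    MapsTo (billiardMap (Body f)) (lines (Body f)) (lines (Body f)) := by
  intro l hl
  obtain ⟨x, hx, hv, hlx⟩ := exists_exit h hl
  rw [hlx, billiard_eq h hx hv]
  refine mem_lines h hx (refl_norm h hx hl.1) ?_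
  rw [refl_inner h hx]
  linarith

theorem exists_preimage (h : Good f g) {l : Euc n × Euc n} (hl : l ∈ lines (Body f)) :
    ∃ x : Euc n, f x = 1 ∧ 0 < ⟪g x, refl g x l.2⟫ ∧ l = lineThrough x l.2 ∧
      lineThrough x (refl g x l.2) ∈ lines (Body f) ∧
      billiardMap (Body f) (lineThrough x (refl g x l.2)) = l := by
  obtain ⟨x, hx, hv, hlx⟩ := exists_entry h hl
  have h1 : 0 < ⟪g x, refl g x l.2⟫ := by
    rw [refl_inner h hx]
    linarith
  refine ⟨x, hx, h1, hlx, mem_lines h hx (refl_norm h hx hl.1) h1.ne', ?_⟩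
  rw [billiard_eq h hx h1, refl_refl h hx]
  exact hlx.symm

theorem bijOn_lines (h : Good f g) :
    BijOn (billiardMap (Body f)) (lines (Body f)) (lines (Body f)) := by
  refine ⟨mapsTo_lines h, ?_, ?_⟩
  · intro l1 hl1 l2 hl2 heq
    obtain ⟨x1, hx1, hv1, e1⟩ := exists_exit h hl1
    obtain ⟨x2, hx2, hv2, e2⟩ := exists_exit h hl2
    rw [e1, e2, billiard_eq h hx1 hv1, billiard_eq h hx2 hv2] at heq
    have hw : refl g x1 l1.2 = refl g x2 l2.2 := congrArg Prod.snd heq
    have hp : x1 - ⟪x1, refl g x1 l1.2⟫ • refl g x1 l1.2 =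
      x2 - ⟪x2, refl g x2 l2.2⟫ • refl g x2 l2.2 := congrArg Prod.fst heq
    rw [← hw] at hp
    set w := refl g x1 l1.2 with hwdef
    have hw1 : ‖w‖ = 1 := refl_norm h hx1 hl1.1
    have hn1 : ⟪g x1, w⟫ < 0 := by
      rw [hwdef, refl_inner h hx1]
      linarith
    have hn2 : ⟪g x2, w⟫ < 0 := by
      rw [hw, refl_inner h hx2]
      linarith
    have hx12 : x2 = x1 + (⟪x2, w⟫ - ⟪x1, w⟫) • w := by
      have h3 : x2 = x1 - ⟪x1, w⟫ • w + ⟪x2, w⟫ • w := by
        rw [hp]
        abel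
      rw [sub_smul]
      nth_rewrite 1 [h3]
      abel
    set s := ⟪x2, w⟫ - ⟪x1, w⟫ with hs
    have hs0 : s = 0 := by
      have g1 := h.ge x1 x2
      have g2 := h.ge x2 x1
      have e3 : x2 - x1 = s • w := by
        nth_rewrite 1 [hx12]
        abel
      have e4 : x1 - x2 = (-s) • w := by
        rw [neg_smul, ← e3]
        abel
      rw [e3, real_inner_smul_right, norm_smul, hw1, mul_one, Real.norm_eq_abs, sq_abs, hx1,
        hx2] at g1
      rw [e4, real_inner_smul_right, norm_smul, hw1, mul_one, Real.norm_eq_abs, sq_abs, hx1,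
        hx2] at g2
      by_contra hne
      rcases lt_or_gt_of_ne hne with h5 | h5
      · have : 0 < s * ⟪g x1, w⟫ := mul_pos_of_neg_of_neg h5 hn1
        nlinarith [sq_nonneg s]
      · have : 0 < -s * ⟪g x2, w⟫ := mul_pos_of_neg_of_neg (by linarith) hn2
        nlinarith [sq_nonneg s]
    have hxx : x2 = x1 := by
      rw [hx12, hs0, zero_smul, add_zero]
    have hvv : l1.2 = l2.2 := by
      have h6 := congrArg (refl g x1) hw
      rw [hwdef, refl_refl h hx1, hxx, refl_refl h hx1] at h6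
      exact h6
    rw [e1, e2, hxx, hvv]
  · intro l hl
    obtain ⟨x, hx, hv, hlx, hmem, heq⟩ := exists_preimage h hl
    exact ⟨_, hmem, heq⟩

/-! ### the angular momentum -/

/-- the angular momentum `p_i v_j - p_j v_i` of the oriented line `(p, v)` -/
def am (i j : Fin n) (l : Euc n × Euc n) : ℝ := l.1 i * l.2 j - l.1 j * l.2 i

theorem am_lineThrough (i j : Fin n) (x v : Euc n) :
    am i j (lineThrough x v) = x i * v j - x j * v i := by
  unfold am lineThrough
  simp only [PiLp.sub_apply, PiLp.smul_apply, smul_eq_mul]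
  ring

theorem am_refl {i j k : Fin n} (hi : i ≠ k) (hj : j ≠ k) (x v : Euc n) :
    am i j (lineThrough x (refl (gi k) x v)) = am i j (lineThrough x v) := by
  rw [am_lineThrough, am_lineThrough]
  unfold refl
  set c := ⟪v, ‖gi k x‖⁻¹ • gi k x⟫ with hc
  set d := ‖gi k x‖⁻¹ with hd
  have e1 : gi k x i = 2 * x i := by simp [gi, hi]
  have e2 : gi k x j = 2 * x j := by simp [gi, hj]
  simp only [PiLp.sub_apply, PiLp.smul_apply, smul_eq_mul, e1, e2]
  ring

/-- the level sets of the angular momentum -/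
def level (i j k : Fin n) (c : ℝ) : Set (Euc n × Euc n) :=
  {l | l ∈ lines (Body (fi k)) ∧ am i j l = c}

theorem contDiff_am (i j : Fin n) : ContDiff ℝ ∞ (am (n := n) i j) := by
  unfold am
  fun_prop

theorem level_invariant {i j k : Fin n} (hij : i ≠ j) (hi : i ≠ k) (hj : j ≠ k) {c : ℝ}
    (hc0 : 0 < c) (hc1 : c < 1) : IsInvariantHypersurface (Body (fi k)) (level i j k c) where
  nonempty := by
    refine ⟨(EuclideanSpace.single i c, EuclideanSpace.single j 1), ⟨by simp, ?_, 0, ?_⟩, ?_⟩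
    · simp [EuclideanSpace.inner_single_left, hij]
    · rw [(goodi k).interior_body]
      show fi k _ < 1
      unfold fi
      simp only [zero_smul, add_zero, PiLp.norm_single, Real.norm_eq_abs, sq_abs]
      simp [hi.symm]
      rw [abs_of_pos hc0]
      exact hc1
    · unfold am
      simp [hij]
  subset := fun l hl => hl.1
  closed := ⟨{l | am i j l = c}, isClosed_eq (contDiff_am i j).continuous continuous_const, rfl⟩
  smooth := by
    intro l hl
    refine ⟨fun l => am i j l - c, (contDiff_am i j).sub contDiff_const, ?_, ?_⟩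
    · refine Eventually.of_forall fun l' hl' => ?_
      rw [sub_eq_zero]
      exact ⟨fun h => h.2, fun h => ⟨hl', h⟩⟩
    · set w : Euc n := EuclideanSpace.single i (-(l.2 j)) + EuclideanSpace.single j (l.2 i) with hw
      refine ⟨(w, 0), ⟨by simp, ?_⟩, ?_⟩
      · simp only [inner_zero_right, add_zero]
        rw [hw, inner_add_left, EuclideanSpace.inner_single_left, EuclideanSpace.inner_single_left]
        simp
        ring
      · have hd : HasDerivAt (fun s : ℝ => am i j (l + s • (w, (0 : Euc n))) - c)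
            (fderiv ℝ (fun l => am i j l - c) l (w, 0)) 0 := by
          have hl0 : HasDerivAt (fun s : ℝ => l + s • (w, (0 : Euc n))) (w, 0) 0 := by
            simpa using ((hasDerivAt_id (0 : ℝ)).smul_const (w, (0 : Euc n))).const_add l
          have hF : HasFDerivAt (fun l => am i j l - c) (fderiv ℝ (fun l => am i j l - c) l)
              (l + (0 : ℝ) • (w, (0 : Euc n))) := by
            rw [zero_smul, add_zero]
            exact (((contDiff_am i j).sub contDiff_const).differentiable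
              (by simp)).differentiableAt.hasFDerivAt
          exact hF.comp_hasDerivAt 0 hl0
        have he : (fun s : ℝ => am i j (l + s • (w, (0 : Euc n))) - c) =
            fun s => (am i j l - c) + s * (-((l.2 i) ^ 2 + (l.2 j) ^ 2)) := by
          ext s
          unfold am
          simp [hw, hij, hij.symm]
          ring
        rw [he] at hd
        have hd2 : HasDerivAt (fun s : ℝ => (am i j l - c) + s * (-((l.2 i) ^ 2 + (l.2 j) ^ 2)))
            (-((l.2 i) ^ 2 + (l.2 j) ^ 2)) 0 := by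
          refine (((hasDerivAt_id (0 : ℝ)).mul_const
            (-((l.2 i) ^ 2 + (l.2 j) ^ 2))).const_add (am i j l - c)).congr_deriv ?_
          ring
        rw [hd.unique hd2]
        intro h0
        have h1 : l.2 i = 0 := by nlinarith [sq_nonneg (l.2 i), sq_nonneg (l.2 j)]
        have h2 : l.2 j = 0 := by nlinarith [sq_nonneg (l.2 i), sq_nonneg (l.2 j)]
        have h3 := hl.2
        unfold am at h3
        rw [h1, h2] at h3
        linarith
  invariant := by
    apply Subset.antisymm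
    · rintro _ ⟨l, ⟨hl, hlc⟩, rfl⟩
      refine ⟨mapsTo_lines (goodi k) hl, ?_⟩
      obtain ⟨x, hx, hv, hlx⟩ := exists_exit (goodi k) hl
      rw [hlx, billiard_eq (goodi k) hx hv, am_refl hi hj, ← hlx, hlc]
    · rintro l ⟨hl, hlc⟩
      obtain ⟨x, hx, hv, hlx, hmem, heq⟩ := exists_preimage (goodi k) hl
      refine ⟨_, ⟨hmem, ?_⟩, heq⟩
      rw [am_refl hi hj, ← hlx, hlc]

theorem q1 (n : ℕ) (hn : 3 ≤ n) : ∃ Ω : Set (Euc n), IsTable Ω ∧ ¬ IsEllipsoid Ω ∧
    BijOn (billiardMap Ω) (lines Ω) (lines Ω) ∧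
    ∀ c : ℝ, 0 < c → c < 1 → IsInvariantHypersurface Ω
      {l | l ∈ lines Ω ∧ l.1 ⟨0, by omega⟩ * l.2 ⟨1, by omega⟩ -
        l.1 ⟨1, by omega⟩ * l.2 ⟨0, by omega⟩ = c} := by
  have h01 : (⟨0, by omega⟩ : Fin n) ≠ ⟨1, by omega⟩ := by simp
  have h02 : (⟨0, by omega⟩ : Fin n) ≠ ⟨2, by omega⟩ := by simp
  have h12 : (⟨1, by omega⟩ : Fin n) ≠ ⟨2, by omega⟩ := by simp
  exact ⟨Body (fi ⟨2, by omega⟩), (goodi _).isTable, not_elli h02, bijOn_lines (goodi _),
    fun c h0 h1 => level_invariant h01 h02 h12 h0 h1⟩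

end Pool.Agent.L0h86.MBI
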